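import Pool.Agent.V5helper62.RM.Tails
import Pool.Agent.R356.Aff

/-!
# Relative measures: algebraic bases, pairs
-/

set_option autoImplicit false

namespace Pool.Agent.V5helper62.RM

open Polynomial Finset Pool.Agent.R356 Pool.Agent.N743.SS Pool.Agent.TH456.TM

/-- a relative measure over algebraic numbers is a measure -/
theorem RelM.measM {ι : Type} {S : Set ℝ} {y : ι → ℝ} (h : RelM S y) (hfin : S.Finite)
    (hS : ∀ t ∈ S, IsAlgebraic ℤ t) : MeasM y := by
  classical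
  intro D
  obtain ⟨T, rfl⟩ : ∃ T : Finset ℝ, (T : Set ℝ) = S := ⟨hfin.toFinset, by simp⟩
  have hex : ∀ t : ℝ, ∃ P : ℤ[X], t ∈ T → (P ≠ 0 ∧ aeval t P = 0) := by
    intro t
    by_cases ht : t ∈ T
    · obtain ⟨P, hP, h0⟩ := hS t ht
      exact ⟨P, fun _ => ⟨hP, h0⟩⟩
    · exact ⟨0, fun h => absurd h ht⟩
  choose P hP using hex
  obtain ⟨A, hA1, hA⟩ : ∃ A : ℝ, 1 ≤ A ∧ ∀ t ∈ T, (ht (P t) : ℝ) ≤ A := by
    refine ⟨1 + ∑ t ∈ T, (ht (P t) : ℝ), ?_, fun t ht' => ?_⟩
    · have : (0 : ℝ) ≤ ∑ t ∈ T, (ht (P t) : ℝ) := sum_nonneg fun t _ => by positivity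
      linarith
    · have := single_le_sum (f := fun t => (ht (P t) : ℝ)) (fun i _ => by positivity) ht'
      linarith
  obtain ⟨E, hE⟩ : ∃ E : ℕ, ∀ t ∈ T, (P t).natDegree ≤ E :=
    ⟨∑ t ∈ T, (P t).natDegree, fun t ht' =>
      single_le_sum (f := fun t => (P t).natDegree) (fun i _ => Nat.zero_le _) ht'⟩
  obtain ⟨κ, c, hκ, hc, hm⟩ := h (D + E)
  have hA0 : 0 < A := by linarith
  refine ⟨κ, c * A ^ (-κ), hκ, by positivity, fun Q hQ hQD H hQH => ?_⟩
  have hH : 1 ≤ H := one_le_of_mcoeff hQ hQH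
  have hH0 : 0 < H := by linarith
  have h1 := hm (A * H) (fun t ht' => ⟨P t, (hP t ht').1, (hE t ht').trans (Nat.le_add_left _ _), fun j => by
      refine (le_ht (P t) j).trans ((hA t ht').trans ?_)
      nlinarith, by
      rw [(hP t ht').2, abs_zero]
      positivity⟩) Q hQ (hQD.trans (Nat.le_add_right _ _)) (fun m => (hQH m).trans (by nlinarith))
  rw [Real.mul_rpow hA0.le hH0.le, ← mul_assoc] at h1
  exact h1

/-- a relative measure for one number gives a joint measure -/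
theorem jointR_of_relM {u v : ℝ} (h : RelM {u} (fun _ : Unit => v)) : JointR u v := by
  intro D
  obtain ⟨κ, c, hκ, hc, hm⟩ := h D
  obtain ⟨A, hA⟩ : ∃ A : ℝ, A = (D + 1) * max 1 (lenM (MvPolynomial.X () : MvPolynomial Unit ℤ)) ^ D := ⟨_, rfl⟩
  have hA1 : 1 ≤ A := by
    rw [hA]
    refine one_le_mul_of_one_le_of_one_le ?_ (one_le_pow₀ (le_max_left _ _))
    have : (0 : ℝ) ≤ D := Nat.cast_nonneg _
    linarith
  have hA0 : 0 < A := by linarith
  refine ⟨κ, c * A ^ (-κ), hκ, by positivity, fun P Q hP hQ hPD hQD H hPH hQH => ?_⟩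
  have hH : 1 ≤ H := one_le_of_coeff P hP H hPH
  have hH0 : 0 < H := by linarith
  have e1 : c * A ^ (-κ) * H ^ (-κ) = c * (A * H) ^ (-κ) := by
    rw [Real.mul_rpow hA0.le hH0.le, mul_assoc]
  rw [e1]
  by_contra hcon
  rw [not_le, max_lt_iff] at hcon
  have hHA : H ≤ A * H := by nlinarith
  have h0 : (aeval (MvPolynomial.X () : MvPolynomial Unit ℤ) Q) ≠ 0 := by
    intro h0
    apply hQ
    have h2 : ∀ R : ℤ[X], MvPolynomial.aeval (fun _ : Unit => (X : ℤ[X]))
        (aeval (MvPolynomial.X () : MvPolynomial Unit ℤ) R) = R := by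
      intro R
      induction R using Polynomial.induction_on' with
      | add p q hp hq => rw [map_add, map_add, hp, hq]
      | monomial n a =>
        rw [aeval_monomial, map_mul, map_pow, MvPolynomial.aeval_X]
        simp [Polynomial.C_mul_X_pow_eq_monomial.symm]
    rw [← h2 Q, h0, map_zero]
  have h3 := hm (A * H) (by
    rintro t rfl
    exact ⟨P, hP, hPD, fun j => (hPH j).trans hHA, hcon.1⟩) (aeval (MvPolynomial.X () : MvPolynomial Unit ℤ) Q) h0
    (by
      rw [aeval_eq_sum_range]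
      refine MvPolynomial.totalDegree_finsetSum_le fun i hi => ?_
      rw [mem_range] at hi
      refine (MvPolynomial.totalDegree_smul_le _ _).trans ?_
      rw [MvPolynomial.totalDegree_X_pow]
      omega)
    (fun m => (le_lenM _ m).trans ((isLen_aeval isLenM _ Q D hQD H hQH).trans (by
      rw [hA]
      exact le_of_eq (by ring))))
  have h4 : MvPolynomial.aeval (fun _ : Unit => v) (aeval (MvPolynomial.X () : MvPolynomial Unit ℤ) Q) =
      aeval v Q := by
    rw [← aeval_algHom_apply, MvPolynomial.aeval_X]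
  rw [h4] at h3
  exact absurd h3 (not_le.2 hcon.2)

/-- two members of one family -/
theorem joint_tails {k : ℕ} (hk : 1 ≤ k) (o o' : Option ℚ) (ho : ∀ x, o = some x → 0 < x)
    (ho' : ∀ x, o' = some x → 0 < x) (hne : o ≠ o') : JointR (Ph (k, o)) (Ph (k, o')) := by
  have h := relM_tails {k} (fun _ => o) {(k, o')} (by
      intro k' hk'
      rw [mem_singleton] at hk'
      rw [hk']
      exact ⟨hk, ho⟩) (by
      intro p hp
      rw [mem_singleton] at hp
      rw [hp]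
      exact ⟨mem_singleton_self _, fun h => hne h.symm, ho'⟩)
  rw [coe_singleton, Set.image_singleton] at h
  have h2 := h.comp (fun _ : Unit => some ⟨(k, o'), mem_singleton_self _⟩) (fun _ _ _ => rfl)
  exact jointR_of_relM h2

/-- sparse near relations of a family -/
theorem sparse_tails {k : ℕ} (hk : 1 ≤ k) (S : Finset (Option ℚ)) (hS : ∀ o ∈ S, ∀ x, o = some x → 0 < x)
    (D : ℕ) :
    ∃ κ : ℝ, 0 < κ ∧ ∀ w ρ : ℝ, 1 < ρ → ρ < w / κ → ∃ C : ℝ, ∀ X : ℝ, 3 ≤ X →
      {p : Option ℚ × ℤ[X] | p.1 ∈ S ∧ Irreducible p.2 ∧ p.2.natDegree ≤ D ∧ 0 < p.2.leadingCoeff ∧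
        |aeval (Ph (k, p.1)) p.2| ≤ (ht p.2 : ℝ) ^ (-w) ∧ (ht p.2 : ℝ) ≤ X}.Finite ∧
      ({p : Option ℚ × ℤ[X] | p.1 ∈ S ∧ Irreducible p.2 ∧ p.2.natDegree ≤ D ∧ 0 < p.2.leadingCoeff ∧
        |aeval (Ph (k, p.1)) p.2| ≤ (ht p.2 : ℝ) ^ (-w) ∧ (ht p.2 : ℝ) ≤ X}.ncard : ℝ) ≤
        Real.log (Real.log X) / Real.log ρ + C :=
  sparse_joint S (fun o => Ph (k, o)) (fun o ho o' ho' hne => joint_tails hk o o' (hS o ho) (hS o' ho') hne) D

end Pool.Agent.V5helper62.RM
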