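import Pool.Agent.N743.SS.Pair2

/-!
# Measures of algebraic independence relative to a set of numbers
-/

set_option autoImplicit false

namespace Pool.Agent.V5helper62.RM

open Polynomial Finset Pool.Agent.R356 Pool.Agent.N743.SS

/-- a near relation of `t`: a nonzero integer polynomial of degree at most `D` and height at most `H`
whose value at `t` is smaller than `δ` -/
def Near (D : ℕ) (H δ t : ℝ) : Prop :=
  ∃ P : ℤ[X], P ≠ 0 ∧ P.natDegree ≤ D ∧ (∀ j, |((P.coeff j : ℤ) : ℝ)| ≤ H) ∧ |aeval t P| < δ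

/-- a measure of algebraic independence relative to a set of numbers -/
def RelM {ι : Type} (S : Set ℝ) (y : ι → ℝ) : Prop :=
  ∀ D : ℕ, ∃ κ c : ℝ, 0 < κ ∧ 0 < c ∧ ∀ H : ℝ, (∀ t ∈ S, Near D H (c * H ^ (-κ)) t) →
    ∀ Q : MvPolynomial ι ℤ, Q ≠ 0 → Q.totalDegree ≤ D → (∀ m, |((Q.coeff m : ℤ) : ℝ)| ≤ H) →
      c * H ^ (-κ) ≤ |MvPolynomial.aeval y Q|

lemma Near.mono {D E : ℕ} {H H' δ δ' t : ℝ} (h : Near D H δ t) (hD : D ≤ E) (hH : H ≤ H') (hδ : δ ≤ δ') :
    Near E H' δ' t := by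
  obtain ⟨P, h1, h2, h3, h4⟩ := h
  exact ⟨P, h1, h2.trans hD, fun j => (h3 j).trans hH, h4.trans_le hδ⟩

lemma relM_of_measM {ι : Type} {y : ι → ℝ} (h : MeasM y) : RelM ∅ y := by
  intro D
  obtain ⟨κ, c, hκ, hc, h⟩ := h D
  exact ⟨κ, c, hκ, hc, fun H _ Q hQ hD hH => h Q hQ hD H hH⟩

lemma measM_of_relM {ι : Type} {y : ι → ℝ} (h : RelM ∅ y) : MeasM y := by
  intro D
  obtain ⟨κ, c, hκ, hc, h⟩ := h D
  exact ⟨κ, c, hκ, hc, fun Q hQ hD H hH => h H (fun t ht => absurd ht (Set.notMem_empty t)) Q hQ hD hH⟩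

lemma RelM.comp {ι κ' : Type} {S : Set ℝ} {x : ι → ℝ} (h : RelM S x) (g : κ' → ι) (hg : Function.Injective g) :
    RelM S (x ∘ g) := by
  intro D
  obtain ⟨r, c, hr, hc, hm⟩ := h D
  refine ⟨r, c, hr, hc, fun H hS P hP hD hH => ?_⟩
  have h1 := hm H hS (MvPolynomial.rename g P)
    (fun h0 => hP (MvPolynomial.rename_injective g hg (h0.trans (map_zero _).symm)))
    ((MvPolynomial.totalDegree_rename_le g P).trans hD) (fun s => by
      by_cases hs : (MvPolynomial.rename g P).coeff s = 0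
      · rw [hs]
        have := one_le_of_mcoeff hP hH
        simp only [Int.cast_zero, abs_zero]
        linarith
      · obtain ⟨u, hu, -⟩ := MvPolynomial.coeff_rename_ne_zero _ _ _ hs
        rw [← hu, MvPolynomial.coeff_rename_mapDomain g hg]
        exact hH u)
  rwa [MvPolynomial.aeval_rename] at h1

/-- the homogenized value of `Q` -/
noncomputable def homE {κ' A : Type*} [CommRing A] (D : ℕ) (Q : MvPolynomial κ' ℤ) (d : A) (φ : κ' → A) : A :=
  ∑ m ∈ Q.support, ((Q.coeff m : ℤ) : A) * (d ^ (D - m.degree) * ∏ j ∈ m.support, φ j ^ m j)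

lemma homE_one {κ' A : Type*} [CommRing A] (D : ℕ) (Q : MvPolynomial κ' ℤ) (φ : κ' → A) :
    homE D Q 1 φ = MvPolynomial.aeval φ Q := by
  rw [MvPolynomial.aeval_def, MvPolynomial.eval₂_eq, homE]
  refine sum_congr rfl fun m _ => ?_
  rw [one_pow, one_mul, algebraMap_int_eq, eq_intCast]

lemma homE_map {κ' A B : Type*} [CommRing A] [CommRing B] (ρ : A →+* B) (D : ℕ) (Q : MvPolynomial κ' ℤ)
    (d : A) (φ : κ' → A) : ρ (homE D Q d φ) = homE D Q (ρ d) (fun j => ρ (φ j)) := by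
  rw [homE, homE, map_sum]
  refine sum_congr rfl fun m _ => ?_
  rw [map_mul, map_mul, map_pow, map_prod, map_intCast]
  simp only [map_pow]

lemma degree_le {κ' : Type*} {D : ℕ} {Q : MvPolynomial κ' ℤ} (hQ : Q.totalDegree ≤ D) {m : κ' →₀ ℕ}
    (hm : m ∈ Q.support) : m.degree ≤ D := by
  refine le_trans ?_ hQ
  have h1 := MvPolynomial.le_totalDegree hm
  exact h1

lemma homE_mul {κ' A : Type*} [CommRing A] {D : ℕ} {Q : MvPolynomial κ' ℤ} (hQ : Q.totalDegree ≤ D) (d : A)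
    (φ y : κ' → A) (h : ∀ j, φ j = d * y j) : homE D Q d φ = d ^ D * MvPolynomial.aeval y Q := by
  rw [← homE_one D Q y, homE, homE, mul_sum]
  refine sum_congr rfl fun m hm => ?_
  have h1 := degree_le hQ hm
  have h2 : ∏ j ∈ m.support, φ j ^ m j = d ^ m.degree * ∏ j ∈ m.support, y j ^ m j := by
    have h2' : m.degree = ∑ j ∈ m.support, m j := rfl
    rw [h2', ← prod_pow_eq_pow_sum, ← prod_mul_distrib]
    refine prod_congr rfl fun j _ => ?_
    rw [h j, mul_pow]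
  rw [h2, one_pow]
  have h3 : d ^ D = d ^ (D - m.degree) * d ^ m.degree := by rw [← pow_add, Nat.sub_add_cancel h1]
  rw [h3]
  ring

/-- the exponents of degree at most `D` in every variable -/
noncomputable def expo (κ' : Type*) [Fintype κ'] (D : ℕ) : Finset (κ' →₀ ℕ) := by
  classical
  exact (Fintype.piFinset fun _ : κ' => range (D + 1)).image Finsupp.equivFunOnFinite.symm

lemma support_subset {κ' : Type*} [Fintype κ'] {D : ℕ} {Q : MvPolynomial κ' ℤ} (hQ : Q.totalDegree ≤ D) :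
    Q.support ⊆ expo κ' D := by
  classical
  intro m hm
  rw [expo, mem_image]
  refine ⟨m, ?_, Finsupp.equivFunOnFinite.symm_apply_apply m⟩
  rw [Fintype.mem_piFinset]
  intro j
  rw [mem_range]
  have h1 := degree_le hQ hm
  have h2 : m j ≤ m.degree := Finsupp.le_degree j m
  omega

lemma homE_len {κ' A : Type*} [Fintype κ'] [CommRing A] {f : A → ℝ} (hf : IsLen f) {D : ℕ}
    {Q : MvPolynomial κ' ℤ} (hQ : Q.totalDegree ≤ D) (d : A) (φ : κ' → A) {H B : ℝ}
    (hH : ∀ m, |((Q.coeff m : ℤ) : ℝ)| ≤ H) (hB : 1 ≤ B) (hd : f d ≤ B) (hφ : ∀ j, f (φ j) ≤ B) :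
    f (homE D Q d φ) ≤ ((expo κ' D).card : ℝ) * (H * B ^ D) := by
  have hH0 : 0 ≤ H := (abs_nonneg _).trans (hH 0)
  have hB0 : 0 ≤ B := by linarith
  refine (hf.sum _ _).trans ?_
  have h1 : ∀ m ∈ Q.support, f (((Q.coeff m : ℤ) : A) * (d ^ (D - m.degree) * ∏ j ∈ m.support, φ j ^ m j)) ≤
      H * B ^ D := by
    intro m hm
    have h2 := degree_le hQ hm
    refine (hf.mul _ _).trans (mul_le_mul ((isLen_intCast hf _).trans (hH m)) ?_ (hf.nonneg _) hH0)
    refine (hf.mul _ _).trans ?_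
    have h3 : f (d ^ (D - m.degree)) ≤ B ^ (D - m.degree) :=
      (isLen_pow hf _ _).trans (pow_le_pow_left₀ (hf.nonneg _) hd _)
    have h4 : f (∏ j ∈ m.support, φ j ^ m j) ≤ B ^ m.degree := by
      refine (hf.prod _ _).trans ?_
      have h2' : m.degree = ∑ j ∈ m.support, m j := rfl
      rw [h2', ← prod_pow_eq_pow_sum]
      refine prod_le_prod (fun j _ => hf.nonneg _) fun j _ => ?_
      exact (isLen_pow hf _ _).trans (pow_le_pow_left₀ (hf.nonneg _) (hφ j) _)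
    calc f (d ^ (D - m.degree)) * f (∏ j ∈ m.support, φ j ^ m j)
        ≤ B ^ (D - m.degree) * B ^ m.degree := mul_le_mul h3 h4 (hf.nonneg _) (by positivity)
      _ = B ^ D := by rw [← pow_add, Nat.sub_add_cancel h2]
  refine (sum_le_sum h1).trans ?_
  rw [sum_const, nsmul_eq_mul]
  have h5 : (Q.support.card : ℝ) ≤ (expo κ' D).card := by exact_mod_cast card_le_card (support_subset hQ)
  exact mul_le_mul_of_nonneg_right h5 (by positivity)

lemma homE_filt {κ' R : Type*} [CommRing R] (A : ℕ → AddSubgroup R) (h1 : (1 : R) ∈ A 0)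
    (hmono : ∀ m n, m ≤ n → A m ≤ A n) (hm : ∀ m n a b, a ∈ A m → b ∈ A n → a * b ∈ A (m + n)) {D E : ℕ}
    {Q : MvPolynomial κ' ℤ} (hQ : Q.totalDegree ≤ D) (d : R) (φ : κ' → R) (hd : d ∈ A E) (hφ : ∀ j, φ j ∈ A E) :
    homE D Q d φ ∈ A (D * E) := by
  have hpow : ∀ (a : R) (n : ℕ), a ∈ A E → a ^ n ∈ A (n * E) := by
    intro a n ha
    induction n with
    | zero => simpa using h1
    | succ n ih =>
      rw [pow_succ, add_mul, one_mul]
      exact hm _ _ _ _ ih ha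
  have hprod : ∀ (s : Finset κ') (m : κ' →₀ ℕ), ∏ j ∈ s, φ j ^ m j ∈ A ((∑ j ∈ s, m j) * E) := by
    classical
    intro s m
    induction s using Finset.induction_on with
    | empty => simpa using h1
    | insert i s hi ih =>
      rw [prod_insert hi, sum_insert hi, add_mul]
      exact hm _ _ _ _ (hpow _ _ (hφ i)) ih
  refine sum_mem fun m hmm => ?_
  have h2 := degree_le hQ hmm
  have h3 : d ^ (D - m.degree) * ∏ j ∈ m.support, φ j ^ m j ∈ A (D * E) := by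
    have h4 := hm _ _ _ _ (hpow d (D - m.degree) hd) (hprod m.support m)
    have h5 : (D - m.degree) * E + (∑ j ∈ m.support, m j) * E = D * E := by
      rw [← add_mul]
      congr 1
      have : ∑ j ∈ m.support, m j = m.degree := rfl
      omega
    rwa [h5] at h4
  have h6 : ((Q.coeff m : ℤ) : R) * (d ^ (D - m.degree) * ∏ j ∈ m.support, φ j ^ m j) =
      (Q.coeff m) • (d ^ (D - m.degree) * ∏ j ∈ m.support, φ j ^ m j) := by
    rw [zsmul_eq_mul]
  rw [h6]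
  exact AddSubgroup.zsmul_mem _ h3 _

/-- arithmetic: comparison of two bounds -/
lemma bound_le {κ₀ c₀ W : ℝ} {g h : ℕ} (hκ₀ : 0 < κ₀) (hc₀ : 0 < c₀) (hW : 1 ≤ W) {H : ℝ} (hH : 1 ≤ H) :
    c₀ * W ^ (-κ₀) / W * H ^ (-(g * κ₀ + h + 1 : ℝ)) * (W * H ^ h) ≤ c₀ * (W * H ^ g) ^ (-κ₀) := by
  have hW0 : 0 < W := by linarith
  have hH0 : 0 < H := by linarith
  have h1 : (W * H ^ g) ^ (-κ₀) = W ^ (-κ₀) * H ^ (-(g * κ₀ : ℝ)) := by
    rw [Real.mul_rpow hW0.le (by positivity), ← Real.rpow_natCast, ← Real.rpow_mul hH0.le]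
    congr 2
    ring
  have h2 : H ^ (-(g * κ₀ + h + 1 : ℝ)) * H ^ h ≤ H ^ (-(g * κ₀ : ℝ)) := by
    rw [← Real.rpow_natCast H h, ← Real.rpow_add hH0]
    exact Real.rpow_le_rpow_of_exponent_le hH (by linarith)
  calc c₀ * W ^ (-κ₀) / W * H ^ (-(g * κ₀ + h + 1 : ℝ)) * (W * H ^ h)
      = c₀ * W ^ (-κ₀) * (H ^ (-(g * κ₀ + h + 1 : ℝ)) * H ^ h) := by field_simp
    _ ≤ c₀ * W ^ (-κ₀) * H ^ (-(g * κ₀ : ℝ)) := by gcongr
    _ = _ := by rw [h1]; ring

/-- **Transfer** of relative measures -/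
theorem transfer {ι κ' : Type} [Fintype κ'] {S : Set ℝ} {x : ι → ℝ} (hx : RelM S x) (y : κ' → ℝ)
    (d : MvPolynomial ι ℤ) (hd : MvPolynomial.aeval x d ≠ 0) (φ : κ' → MvPolynomial ι ℤ)
    (h : ∀ j, MvPolynomial.aeval x (φ j) = MvPolynomial.aeval x d * y j)
    (hne : ∀ (D : ℕ) (Q : MvPolynomial κ' ℤ), Q ≠ 0 → Q.totalDegree ≤ D → homE D Q d φ ≠ 0) : RelM S y := by
  intro D
  -- bounds
  obtain ⟨B, hB1, hBd, hBφ⟩ : ∃ B : ℝ, 1 ≤ B ∧ lenM d ≤ B ∧ ∀ j, lenM (φ j) ≤ B := by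
    refine ⟨1 + lenM d + ∑ j, lenM (φ j), ?_, ?_, fun j => ?_⟩
    · have h1 := lenM_nonneg d
      have h2 : 0 ≤ ∑ j, lenM (φ j) := sum_nonneg fun j _ => lenM_nonneg _
      linarith
    · have h2 : 0 ≤ ∑ j, lenM (φ j) := sum_nonneg fun j _ => lenM_nonneg _
      linarith
    · have h1 := lenM_nonneg d
      have h2 : lenM (φ j) ≤ ∑ j, lenM (φ j) :=
        single_le_sum (f := fun j => lenM (φ j)) (fun i _ => lenM_nonneg _) (mem_univ j)
      linarith
  obtain ⟨E, hEd, hEφ⟩ : ∃ E : ℕ, d.totalDegree ≤ E ∧ ∀ j, (φ j).totalDegree ≤ E := by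
    refine ⟨d.totalDegree + ∑ j, (φ j).totalDegree, by omega, fun j => ?_⟩
    have h2 : (φ j).totalDegree ≤ ∑ j, (φ j).totalDegree :=
      single_le_sum (f := fun j => (φ j).totalDegree) (fun i _ => Nat.zero_le _) (mem_univ j)
    omega
  obtain ⟨κ₀, c₀, hκ₀, hc₀, hm⟩ := hx (D * E + D)
  obtain ⟨v, hv⟩ : ∃ v : ℝ, v = |MvPolynomial.aeval x d| := ⟨_, rfl⟩
  have hv0 : 0 < v := by rw [hv]; exact abs_pos.2 hd
  obtain ⟨W, hW⟩ : ∃ W : ℝ, W = 1 + ((expo κ' D).card : ℝ) * B ^ D + v ^ D := ⟨_, rfl⟩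
  have hB0 : 0 < B := by linarith
  have hWB : ((expo κ' D).card : ℝ) * B ^ D ≤ W := by
    rw [hW]
    have : 0 ≤ v ^ D := by positivity
    linarith
  have hWv : v ^ D ≤ W := by
    rw [hW]
    have : 0 ≤ ((expo κ' D).card : ℝ) * B ^ D := by positivity
    linarith
  have hW1 : 1 ≤ W := by
    rw [hW]
    have h1 : 0 ≤ v ^ D := by positivity
    have h2 : 0 ≤ ((expo κ' D).card : ℝ) * B ^ D := by positivity
    linarith
  have hW0 : 0 < W := by linarith
  refine ⟨(1 : ℕ) * κ₀ + (0 : ℕ) + 1, c₀ * W ^ (-κ₀) / W, by positivity, by positivity, ?_⟩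
  intro H hS Q hQ hQD hQH
  have hH : 1 ≤ H := one_le_of_mcoeff hQ hQH
  have hb := bound_le (g := 1) (h := 0) hκ₀ hc₀ hW1 hH
  rw [pow_zero, mul_one, pow_one] at hb
  obtain ⟨δ, hδ⟩ : ∃ δ : ℝ, δ = c₀ * W ^ (-κ₀) / W * H ^ (-((1 : ℕ) * κ₀ + (0 : ℕ) + 1 : ℝ)) := ⟨_, rfl⟩
  rw [← hδ] at hb hS ⊢
  have hδ0 : 0 < δ := by rw [hδ]; positivity
  have hδW : δ ≤ c₀ * (W * H) ^ (-κ₀) := le_trans (le_mul_of_one_le_right hδ0.le hW1) hb
  have hHW : H ≤ W * H := by nlinarith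
  have h2 := hm (W * H) (fun t ht => (hS t ht).mono (by nlinarith [Nat.zero_le (D * E)]) hHW hδW)
    (homE D Q d φ) (hne D Q hQ hQD) (by
      have h3 := homE_filt (degM (ι := ι)) (by show (1 : MvPolynomial ι ℤ).totalDegree ≤ 0; simp)
        (fun m n hmn a (ha : a.totalDegree ≤ m) => (show a.totalDegree ≤ n from ha.trans hmn))
        (fun m n a b ha hb => (MvPolynomial.totalDegree_mul a b).trans (Nat.add_le_add ha hb)) hQD d φ hEd hEφ
      have h4 : (homE D Q d φ).totalDegree ≤ D * E := h3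
      omega)
    (fun m => (le_lenM _ m).trans ((homE_len isLenM hQD d φ hQH hB1 hBd hBφ).trans (by
      calc ((expo κ' D).card : ℝ) * (H * B ^ D) = (((expo κ' D).card : ℝ) * B ^ D) * H := by ring
        _ ≤ W * H := mul_le_mul_of_nonneg_right hWB (by linarith))))
  have h5 : MvPolynomial.aeval x (homE D Q d φ) = MvPolynomial.aeval x d ^ D * MvPolynomial.aeval y Q := by
    have h6 := homE_map (MvPolynomial.aeval x : MvPolynomial ι ℤ →ₐ[ℤ] ℝ).toRingHom D Q d φ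
    have h7 := homE_mul hQD (MvPolynomial.aeval x d) (fun j => MvPolynomial.aeval x (φ j)) y h
    exact h6.trans h7
  rw [h5, abs_mul, abs_pow, ← hv] at h2
  have h8 : v ^ D * |MvPolynomial.aeval y Q| ≤ W * |MvPolynomial.aeval y Q| :=
    mul_le_mul_of_nonneg_right hWv (abs_nonneg _)
  have h9 : W * δ ≤ W * |MvPolynomial.aeval y Q| := by
    rw [mul_comm W δ]
    exact hb.trans (h2.trans h8)
  exact le_of_mul_le_mul_left h9 hW0

/-- transfer, if the new numbers are algebraically independent -/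
theorem transfer_ai {ι κ' : Type} [Fintype κ'] {S : Set ℝ} {x : ι → ℝ} (hx : RelM S x) (y : κ' → ℝ)
    (hy : AlgebraicIndependent ℤ y) (d : MvPolynomial ι ℤ) (hd : MvPolynomial.aeval x d ≠ 0)
    (φ : κ' → MvPolynomial ι ℤ)
    (h : ∀ j, MvPolynomial.aeval x (φ j) = MvPolynomial.aeval x d * y j) : RelM S y := by
  refine transfer hx y d hd φ h fun D Q hQ hQD h0 => ?_
  have h6 := homE_map (MvPolynomial.aeval x : MvPolynomial ι ℤ →ₐ[ℤ] ℝ).toRingHom D Q d φ
  have h7 := homE_mul hQD (MvPolynomial.aeval x d) (fun j => MvPolynomial.aeval x (φ j)) y h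
  have h8 : MvPolynomial.aeval x d ^ D * MvPolynomial.aeval y Q = 0 := by
    rw [← h7]
    refine h6.symm.trans ?_
    rw [h0]
    exact map_zero _
  rcases mul_eq_zero.1 h8 with h9 | h9
  · exact hd (eq_zero_of_pow_eq_zero h9)
  · exact hQ ((algebraicIndependent_iff.1 hy) Q h9)

/-- transfer by a substitution that is surjective on complex points -/
theorem transfer_surj {ι κ' : Type} [Fintype κ'] {S : Set ℝ} {x : ι → ℝ} (hx : RelM S x)
    (φ : κ' → MvPolynomial ι ℤ)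
    (hs : ∀ w : κ' → ℂ, ∃ ψ : ι → ℂ, ∀ j, MvPolynomial.aeval ψ (φ j) = w j) :
    RelM S (fun j => MvPolynomial.aeval x (φ j)) := by
  refine transfer hx _ 1 (by rw [map_one]; exact one_ne_zero) φ (fun j => by rw [map_one, one_mul])
    fun D Q hQ hQD h0 => ?_
  have hQ' : MvPolynomial.map (Int.castRingHom ℂ) Q ≠ 0 := fun h1 =>
    hQ (MvPolynomial.map_injective _ Int.cast_injective (h1.trans (map_zero _).symm))
  obtain ⟨w, hw⟩ : ∃ w : κ' → ℂ, MvPolynomial.eval w (MvPolynomial.map (Int.castRingHom ℂ) Q) ≠ 0 := by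
    by_contra hcon
    push Not at hcon
    exact hQ' (MvPolynomial.funext fun w => by rw [hcon w, map_zero])
  obtain ⟨ψ, hψ⟩ := hs w
  apply hw
  rw [MvPolynomial.eval_map, ← algebraMap_int_eq]
  show MvPolynomial.aeval w Q = 0
  have h1 := homE_map (MvPolynomial.aeval ψ : MvPolynomial ι ℤ →ₐ[ℤ] ℂ).toRingHom D Q 1 φ
  rw [h0, map_zero, map_one, homE_one] at h1
  rw [show w = fun j => (MvPolynomial.aeval ψ : MvPolynomial ι ℤ →ₐ[ℤ] ℂ).toRingHom (φ j) from
    funext fun j => (hψ j).symm]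
  exact h1.symm

end Pool.Agent.V5helper62.RM
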