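import Pool.Agent.V5helper62.RM.Step
import Pool.Agent.V5helper44.SimZk

/-!
# Relative measures for the tails of Euler's constant and of the zeta values
-/

set_option autoImplicit false

namespace Pool.Agent.V5helper62.RM

open Finset Pool.Agent.R356 Pool.Agent.N743.SS Pool.Agent.R352.E Pool.Agent.R352.Q Pool.Agent.V5helper44.SimZk

/-- the coefficients of the logarithmic derivative of a power series -/
lemma log_mem (A : Subring ℝ) (F L : PowerSeries ℝ) (hF : PowerSeries.derivative ℝ F = F * L) (n : ℕ)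
    (hA : ∀ i ≤ n, PowerSeries.coeff i F ∈ A) : ∀ j < n,
      (PowerSeries.coeff 0 F) ^ (j + 1) * PowerSeries.coeff j L ∈ A := by
  intro j
  induction j using Nat.strong_induction_on with
  | _ j ih =>
    intro hj
    have h1 : PowerSeries.coeff j (PowerSeries.derivative ℝ F) = PowerSeries.coeff j (F * L) := by rw [hF]
    rw [PowerSeries.coeff_derivative, PowerSeries.coeff_mul,
      Finset.Nat.sum_antidiagonal_eq_sum_range_succ_mk, Finset.sum_range_succ'] at h1
    simp only [Nat.sub_zero] at h1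
    have h2 : (PowerSeries.coeff 0 F) ^ (j + 1) * PowerSeries.coeff j L =
        (PowerSeries.coeff 0 F) ^ j * (PowerSeries.coeff (j + 1) F * ((j : ℝ) + 1)) -
        ∑ i ∈ range j, PowerSeries.coeff (i + 1) F * ((PowerSeries.coeff 0 F) ^ i *
          ((PowerSeries.coeff 0 F) ^ (j - (i + 1) + 1) * PowerSeries.coeff (j - (i + 1)) L)) := by
      rw [h1, mul_add, Finset.mul_sum]
      have h3 : ∑ i ∈ range j, (PowerSeries.coeff 0 F) ^ j *
          (PowerSeries.coeff (i + 1) F * PowerSeries.coeff (j - (i + 1)) L) =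
          ∑ i ∈ range j, PowerSeries.coeff (i + 1) F * ((PowerSeries.coeff 0 F) ^ i *
          ((PowerSeries.coeff 0 F) ^ (j - (i + 1) + 1) * PowerSeries.coeff (j - (i + 1)) L)) := by
        refine Finset.sum_congr rfl fun i hi => ?_
        rw [Finset.mem_range] at hi
        have h4 : (PowerSeries.coeff 0 F) ^ j =
            (PowerSeries.coeff 0 F) ^ i * (PowerSeries.coeff 0 F) ^ (j - (i + 1) + 1) := by
          rw [← pow_add]
          congr 1
          omega
        rw [h4]
        ring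
      rw [h3]
      ring
    rw [h2]
    refine A.sub_mem (A.mul_mem (A.pow_mem (hA 0 (by omega)) _) (A.mul_mem (hA _ (by omega)) ?_)) (A.sum_mem fun i hi => ?_)
    · exact A.add_mem (natCast_mem A j) A.one_mem
    · rw [Finset.mem_range] at hi
      exact A.mul_mem (hA _ (by omega)) (A.mul_mem (A.pow_mem (hA 0 (by omega)) _) (ih _ (by omega) (by omega)))

lemma CC_mem_subring (A : Subring ℝ) {x : ℝ} (hx : 0 < x) (h0 : Real.exp (-x) ∈ A) {k : ℕ} (hk : 1 ≤ k)
    (hE : ∀ l, 1 ≤ l → l ≤ k → EE l x ∈ A) : CC k x ∈ A := by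
  rw [CC]
  split_ifs with h
  · exact hE 1 le_rfl (by omega)
  · have hneg : ∀ n : ℕ, ((-1 : ℝ)) ^ n ∈ A := fun n => A.pow_mem (A.neg_mem A.one_mem) n
    have h1 := log_mem A (As x) (Ls x) (deriv_As hx) k (fun i hi => by
      rcases Nat.eq_zero_or_pos i with rfl | hi0
      · rw [PowerSeries.coeff_zero_eq_constantCoeff_apply, const_As]
        exact A.sub_mem A.one_mem h0
      · rw [As, PowerSeries.coeff_mk]
        exact A.mul_mem (hneg _) (hE i hi0 hi)) (k - 1) (by omega)
    rw [PowerSeries.coeff_zero_eq_constantCoeff_apply, const_As, Nat.sub_add_cancel hk] at h1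
    rw [Zk]
    exact A.mul_mem (hneg _) h1

/-- the field of all numbers of low complexity: only used as some simultaneously Liouville field -/
lemma exists_sim : ∃ F : Subfield ℝ, Pool.Agent.Q163.LE.SimLiouville F :=
  ⟨_, Pool.Agent.Q163.LE.sim_lz Set.univ Set.infinite_univ⟩

/-- **A measure of algebraic independence** of `e` and finitely many of the numbers `C_k(x)` -/
theorem measM_CC (S : Finset (ℕ × ℚ)) (hS : ∀ p ∈ S, 1 ≤ p.1 ∧ 0 < p.2) :
    MeasM (fun o : Option S => o.elim (Real.exp 1) (fun p => CC p.1.1 p.1.2)) := by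
  classical
  obtain ⟨F, hF⟩ := exists_sim
  have hAI : AlgebraicIndependent ℤ (fun o : Option S => o.elim (Real.exp 1) (fun p => CC p.1.1 p.1.2)) := by
    have h1 := AI_subF hF S hS
    refine AlgebraicIndependent.restrictScalars (R := ℤ) (K := F) (fun a b hab => ?_) h1
    rw [algebraMap_int_eq, eq_intCast, eq_intCast] at hab
    exact_mod_cast hab
  -- common denominator of the arguments
  obtain ⟨q, hqd⟩ : ∃ q : ℕ, q = ∏ p ∈ S, p.2.den := ⟨_, rfl⟩
  have hq : 1 ≤ q := by
    rw [hqd]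
    exact Nat.one_le_iff_ne_zero.2 (Finset.prod_ne_zero_iff.2 fun p _ => p.2.den_ne_zero)
  have hq' : (q : ℝ) ≠ 0 := by positivity
  have hm : ∀ p : ℕ × ℚ, ∃ m : ℕ, p ∈ S → (1 ≤ m ∧ (m : ℝ) / q = p.2) := by
    intro p
    by_cases hp : p ∈ S
    · obtain ⟨c, hc⟩ := Finset.dvd_prod_of_mem (fun p : ℕ × ℚ => p.2.den) hp
      have hc' : q = p.2.den * c := hqd.trans hc
      have hnum : 0 < p.2.num := Rat.num_pos.2 (hS p hp).2
      have hc0 : c ≠ 0 := by
        rintro rfl
        rw [mul_zero] at hc'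
        omega
      refine ⟨p.2.num.toNat * c, fun _ => ⟨?_, ?_⟩⟩
      · have h1 : 1 ≤ p.2.num.toNat := by omega
        exact Nat.one_le_iff_ne_zero.2 (Nat.mul_ne_zero (by omega) hc0)
      · have h2 : ((p.2.num.toNat : ℕ) : ℝ) = (p.2.num : ℝ) := by
          have : ((p.2.num.toNat : ℕ) : ℤ) = p.2.num := Int.toNat_of_nonneg hnum.le
          exact_mod_cast this
        have h3 : ((p.2 : ℚ) : ℝ) = (p.2.num : ℝ) / (p.2.den : ℝ) := by
          exact_mod_cast (Rat.num_div_den p.2).symm
        rw [hc', h3]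
        push_cast
        rw [h2]
        have : (p.2.den : ℝ) ≠ 0 := by exact_mod_cast p.2.den_ne_zero
        have : (c : ℝ) ≠ 0 := by exact_mod_cast hc0
        field_simp
    · exact ⟨0, fun h => absurd h hp⟩
  choose m hm using hm
  -- the arguments
  obtain ⟨Y, hY⟩ : ∃ Y : Finset ℕ, Y = S.image m := ⟨_, rfl⟩
  obtain ⟨J, hJ⟩ : ∃ J : ℕ, J = S.sup Prod.fst := ⟨_, rfl⟩
  have hY0 : ∀ a ∈ Y, 1 ≤ a := by
    intro a h1
    rw [hY, mem_image] at h1
    obtain ⟨p, hp, hpe⟩ := h1
    rw [← hpe]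
    exact (hm p hp).1
  obtain ⟨e, -⟩ : ∃ e : Y ≃ Fin Y.card, e = e := ⟨Y.equivFin, rfl⟩
  have hY1 : ∀ i : Fin Y.card, 1 ≤ (((e.symm i : Y) : ℕ)) := fun i => hY0 _ (e.symm i).2
  have hmeas := measM_EE J Y.card (fun i => ((e.symm i : Y) : ℕ)) (by
    intro i j hij
    exact e.symm.injective (Subtype.ext hij)) hY1 hq
  obtain ⟨x, hx⟩ : ∃ x : Option (Fin J × Fin Y.card) → ℝ, x = (fun o : Option (Fin J × Fin Y.card) =>
      o.elim (Real.exp (-1 / q)) (fun p => EE (p.1 + 1) ((((e.symm p.2 : Y) : ℕ) : ℝ) / q))) := ⟨_, rfl⟩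
  rw [← hx] at hmeas
  obtain ⟨A, hA⟩ : ∃ A : Subring ℝ, A = (MvPolynomial.aeval x : MvPolynomial _ ℤ →ₐ[ℤ] ℝ).toRingHom.range := ⟨_, rfl⟩
  have hAx : ∀ o, x o ∈ A := by
    intro o
    rw [hA]
    exact ⟨MvPolynomial.X o, MvPolynomial.aeval_X x o⟩
  have hw : Real.exp (-1 / q) ∈ A := by
    have := hAx none
    rwa [hx] at this
  have hCC : ∀ p : S, CC p.1.1 p.1.2 ∈ A := by
    intro p
    have hp := hm p.1 p.2
    have hS' := hS p.1 p.2
    have hmY : m p.1 ∈ Y := by
      rw [hY]
      exact mem_image_of_mem _ p.2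
    have hx0 : (0 : ℝ) < ((p.1.2 : ℚ) : ℝ) := by exact_mod_cast hS'.2
    refine CC_mem_subring A hx0 ?_ hS'.1 (fun l hl hlk => ?_)
    · have h1 : Real.exp (-((p.1.2 : ℚ) : ℝ)) = Real.exp (-1 / q) ^ (m p.1) := by
        rw [← Real.exp_nat_mul, ← hp.2]
        congr 1
        field_simp
      rw [h1]
      exact A.pow_mem hw _
    · have hlJ : l ≤ J := by
        refine hlk.trans ?_
        rw [hJ]
        exact Finset.le_sup (f := Prod.fst) p.2
      have h1 := hAx (some (⟨l - 1, by omega⟩, e ⟨m p.1, hmY⟩))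
      rw [hx] at h1
      simp only [Option.elim, Equiv.symm_apply_apply, Nat.sub_add_cancel hl] at h1
      rwa [hp.2] at h1
  have hφ : ∀ o : Option S, ∃ φ : MvPolynomial (Option (Fin J × Fin Y.card)) ℤ, MvPolynomial.aeval x φ =
      MvPolynomial.aeval x (MvPolynomial.X none ^ q : MvPolynomial (Option (Fin J × Fin Y.card)) ℤ) * o.elim (Real.exp 1) (fun p => CC p.1.1 p.1.2) := by
    intro o
    have hd : MvPolynomial.aeval x (MvPolynomial.X none ^ q : MvPolynomial (Option (Fin J × Fin Y.card)) ℤ) =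
        Real.exp (-1) := by
      rw [map_pow, MvPolynomial.aeval_X, hx]
      simp only [Option.elim]
      rw [← Real.exp_nat_mul]
      congr 1
      field_simp
    cases o with
    | none =>
      refine ⟨1, ?_⟩
      rw [hd, map_one]
      simp only [Option.elim]
      rw [← Real.exp_add]
      norm_num
    | some p =>
      have h1 := hCC p
      rw [hA] at h1
      obtain ⟨φ, hφ⟩ := h1
      refine ⟨MvPolynomial.X none ^ q * φ, ?_⟩
      rw [map_mul]
      congr 1
  choose φ hφ using hφ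
  refine measM_of_relM (transfer_ai (relM_of_measM hmeas) _ hAI (MvPolynomial.X none ^ q) ?_ φ hφ)
  rw [map_pow, MvPolynomial.aeval_X, hx]
  simp only [Option.elim]
  positivity

/-- the members of the family `c_k`, `R_k(x)` -/
noncomputable def Ph (p : ℕ × Option ℚ) : ℝ := p.2.elim (cst p.1) (fun x => RR p.1 x)

/-- the numbers `0`, `C_k(x)` -/
noncomputable def CN (p : ℕ × Option ℚ) : ℝ := p.2.elim 0 (fun x => CC p.1 x)

lemma Ph_eq (p : ℕ × Option ℚ) : Ph p = cst p.1 - CN p := by
  obtain ⟨k, o⟩ := p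
  cases o with
  | none => simp [Ph, CN]
  | some x => simp [Ph, CN, RR]

/-- the differences from a base point -/
theorem relM_diff (b : ℕ → Option ℚ) (S : Finset (ℕ × Option ℚ))
    (hS : ∀ p ∈ S, 1 ≤ p.1 ∧ p.2 ≠ b p.1 ∧ (∀ x, p.2 = some x → 0 < x) ∧ ∀ x, b p.1 = some x → 0 < x) :
    RelM ∅ (fun o : Option S => o.elim (Real.exp 1) (fun p => Ph p.1 - Ph (p.1.1, b p.1.1))) := by
  classical
  obtain ⟨S', hS'⟩ : ∃ S' : Finset (ℕ × ℚ), S' = (S.biUnion fun p => p.2.elim ∅ (fun x => {(p.1, x)})) ∪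
      (S.biUnion fun p => (b p.1).elim ∅ (fun x => {(p.1, x)})) := ⟨_, rfl⟩
  have hm1 : ∀ (p : ℕ × Option ℚ) (x : ℚ), p ∈ S → p.2 = some x → (p.1, x) ∈ S' := by
    intro p x hp hx
    rw [hS', mem_union]
    left
    rw [mem_biUnion]
    exact ⟨p, hp, by rw [hx]; simp⟩
  have hm2 : ∀ (p : ℕ × Option ℚ) (x : ℚ), p ∈ S → b p.1 = some x → (p.1, x) ∈ S' := by
    intro p x hp hx
    rw [hS', mem_union]
    right
    rw [mem_biUnion]
    exact ⟨p, hp, by rw [hx]; simp⟩
  have hpos : ∀ p ∈ S', 1 ≤ p.1 ∧ 0 < p.2 := by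
    intro p hp
    rw [hS', mem_union, mem_biUnion, mem_biUnion] at hp
    rcases hp with ⟨p', hp', hpe⟩ | ⟨p', hp', hpe⟩
    · obtain ⟨h1, h2, h3, h4⟩ := hS p' hp'
      cases h5 : p'.2 with
      | none => rw [h5] at hpe; simp at hpe
      | some x =>
        rw [h5] at hpe
        simp only [Option.elim, mem_singleton] at hpe
        rw [hpe]
        exact ⟨h1, h3 x h5⟩
    · obtain ⟨h1, h2, h3, h4⟩ := hS p' hp'
      cases h5 : b p'.1 with
      | none => rw [h5] at hpe; simp at hpe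
      | some x =>
        rw [h5] at hpe
        simp only [Option.elim, mem_singleton] at hpe
        rw [hpe]
        exact ⟨h1, h4 x h5⟩
  have hmeas := relM_of_measM (measM_CC S' hpos)
  -- the polynomial for `C_k(o)`
  obtain ⟨Y, hY⟩ : ∃ Y : ℕ × Option ℚ → MvPolynomial (Option S') ℤ, Y = fun p =>
      p.2.elim 0 (fun x => if h : (p.1, x) ∈ S' then MvPolynomial.X (some ⟨(p.1, x), h⟩) else 0) := ⟨_, rfl⟩
  have hYev : ∀ {B : Type} [CommRing B] (ψ : Option S' → B) (p : ℕ × Option ℚ) (g : ℕ × Option ℚ → B),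
      (∀ k, g (k, none) = 0) → (∀ (k : ℕ) (x : ℚ) (h : (k, x) ∈ S'), ψ (some ⟨(k, x), h⟩) = g (k, some x)) →
      (∀ x, p.2 = some x → (p.1, x) ∈ S') → MvPolynomial.aeval ψ (Y p) = g p := by
    intro B _ ψ p g hg0 hg hp
    obtain ⟨k, o⟩ := p
    cases o with
    | none => rw [hY]; simp [hg0]
    | some x =>
      have h1 := hp x rfl
      rw [hY]
      simp only [Option.elim, dif_pos h1, MvPolynomial.aeval_X]
      exact hg k x h1
  have h := transfer_surj hmeas (fun o : Option S => o.elim (MvPolynomial.X none)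
    (fun p => Y (p.1.1, b p.1.1) - Y p.1)) (fun w => by
      obtain ⟨wt, hwt⟩ : ∃ wt : ℕ × Option ℚ → ℂ, wt = fun p => if h : p ∈ S then w (some ⟨p, h⟩) else 0 := ⟨_, rfl⟩
      refine ⟨fun o => o.elim (w none) (fun p => wt (p.1.1, none) - wt (p.1.1, some p.1.2)), fun j => ?_⟩
      cases j with
      | none => simp
      | some p =>
        simp only [Option.elim, map_sub]
        have hp := hS p.1 p.2
        rw [hYev _ (p.1.1, b p.1.1) (fun p' => wt (p'.1, none) - wt p') (by simp) (by intro k x h; rfl)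
          (fun x hx => hm2 p.1 x p.2 hx),
          hYev _ p.1 (fun p' => wt (p'.1, none) - wt p') (by simp) (by intro k x h; rfl)
          (fun x hx => hm1 p.1 x p.2 hx)]
        have h1 : wt p.1 = w (some p) := by
          rw [hwt]
          simp only [p.2, dif_pos]
        have h2 : wt (p.1.1, b p.1.1) = 0 := by
          rw [hwt]
          simp only
          rw [dif_neg]
          intro h3
          exact (hS _ h3).2.1 rfl
        rw [h2, h1]
        ring)
  convert h using 1
  funext o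
  cases o with
  | none => simp
  | some p =>
    simp only [Option.elim, map_sub]
    rw [hYev _ (p.1.1, b p.1.1) CN (by intro k; rfl) (by intro k x h; rfl) (fun x hx => hm2 p.1 x p.2 hx),
      hYev _ p.1 CN (by intro k; rfl) (by intro k x h; rfl) (fun x hx => hm1 p.1 x p.2 hx), Ph_eq, Ph_eq]
    ring

theorem relM_tails_aux (b : ℕ → Option ℚ) (S : Finset (ℕ × Option ℚ))
    (hS : ∀ p ∈ S, 1 ≤ p.1 ∧ p.2 ≠ b p.1 ∧ (∀ x, p.2 = some x → 0 < x) ∧ ∀ x, b p.1 = some x → 0 < x)
    (L : Finset ℕ) :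
    RelM ((fun k => Ph (k, b k)) '' (L : Set ℕ)) (fun o : Option S => o.elim (Real.exp 1)
      (fun p => Ph p.1 - Ph (p.1.1, b p.1.1) + if p.1.1 ∈ L then Ph (p.1.1, b p.1.1) else 0)) := by
  classical
  induction L using Finset.induction_on with
  | empty =>
    have h := relM_diff b S hS
    simpa using h
  | insert k₀ L hk ih =>
    obtain ⟨y, hy⟩ : ∃ y : Option S → ℝ, y = (fun o : Option S => o.elim (Real.exp 1)
      (fun p => Ph p.1 - Ph (p.1.1, b p.1.1) + if p.1.1 ∈ L then Ph (p.1.1, b p.1.1) else 0)) := ⟨_, rfl⟩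
    have hy0 : y none = Real.exp 1 := by rw [hy]; rfl
    have hy1 : ∀ p : S, y (some p) =
        Ph p.1 - Ph (p.1.1, b p.1.1) + if p.1.1 ∈ L then Ph (p.1.1, b p.1.1) else 0 := fun p => by rw [hy]; rfl
    rw [← hy] at ih
    obtain ⟨φ, hφ⟩ : ∃ φ : Option S → Polynomial (MvPolynomial (Option S) ℤ), φ = (fun o : Option S =>
      o.elim (Polynomial.C (MvPolynomial.X none))
      (fun p => Polynomial.C (MvPolynomial.X (some p)) + if p.1.1 = k₀ then Polynomial.X else 0)) := ⟨_, rfl⟩
    have hφ0 : φ none = Polynomial.C (MvPolynomial.X none) := by rw [hφ]; rfl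
    have hφ1 : ∀ p : S, φ (some p) =
        Polynomial.C (MvPolynomial.X (some p)) + if p.1.1 = k₀ then Polynomial.X else 0 := fun p => by rw [hφ]; rfl
    have hX : ∀ {B : Type} [CommRing B] (v : Option S → B) (i : Option S),
        (MvPolynomial.aeval v : MvPolynomial (Option S) ℤ →ₐ[ℤ] B).toRingHom (MvPolynomial.X i) = v i :=
      fun v i => MvPolynomial.aeval_X _ _
    have h := step ih (Ph (k₀, b k₀)) φ (fun α _ w => by
        obtain ⟨v, hv⟩ : ∃ v : Option S → ℂ, v = (fun o : Option S => o.elim (w none)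
          (fun p => w (some p) - if p.1.1 = k₀ then α else 0)) := ⟨_, rfl⟩
        have hv0 : v none = w none := by rw [hv]; rfl
        have hv1 : ∀ p : S, v (some p) = w (some p) - if p.1.1 = k₀ then α else 0 := fun p => by rw [hv]; rfl
        refine ⟨v, fun j => ?_⟩
        cases j with
        | none => rw [hφ0, Polynomial.eval₂_C, hX, hv0]
        | some p =>
          rw [hφ1, Polynomial.eval₂_add, Polynomial.eval₂_C, hX, hv1]
          split_ifs
          · rw [Polynomial.eval₂_X]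
            ring
          · rw [Polynomial.eval₂_zero]
            ring)
    rw [coe_insert, Set.image_insert_eq]
    convert h using 1
    funext o
    cases o with
    | none =>
      rw [hφ0, Polynomial.eval₂_C, hX, hy0]
      rfl
    | some p =>
      rw [hφ1, Polynomial.eval₂_add, Polynomial.eval₂_C, hX, hy1]
      show Ph p.1 - Ph (p.1.1, b p.1.1) + (if p.1.1 ∈ insert k₀ L then Ph (p.1.1, b p.1.1) else 0) = _
      by_cases h2 : p.1.1 = k₀
      · have h3 : p.1.1 ∉ L := by rw [h2]; exact hk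
        rw [if_pos h2, if_neg h3, if_pos (by rw [h2]; exact mem_insert_self _ _), Polynomial.eval₂_X, h2]
        ring
      · rw [if_neg h2, Polynomial.eval₂_zero]
        by_cases h3 : p.1.1 ∈ L
        · rw [if_pos h3, if_pos (mem_insert_of_mem h3)]
          ring
        · rw [if_neg h3, if_neg (by rw [mem_insert]; tauto)]
          ring

/-- **Relative measures for the tails** -/
theorem relM_tails (K : Finset ℕ) (b : ℕ → Option ℚ) (S : Finset (ℕ × Option ℚ))
    (hK : ∀ k ∈ K, 1 ≤ k ∧ ∀ x, b k = some x → 0 < x)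
    (hS : ∀ p ∈ S, p.1 ∈ K ∧ p.2 ≠ b p.1 ∧ ∀ x, p.2 = some x → 0 < x) :
    RelM ((fun k => Ph (k, b k)) '' (K : Set ℕ)) (fun o : Option S => o.elim (Real.exp 1) (fun p => Ph p.1)) := by
  have h := relM_tails_aux b S (fun p hp => ⟨(hK _ (hS p hp).1).1, (hS p hp).2.1, (hS p hp).2.2,
    (hK _ (hS p hp).1).2⟩) K
  convert h using 1
  funext o
  cases o with
  | none => rfl
  | some p =>
    simp only [Option.elim]
    rw [if_pos (hS p.1 p.2).1]
    ring

end Pool.Agent.V5helper62.RM
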