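import Pool.Agent.V5helper62.RM.Basic

/-!
# Relative measures: adding one number
-/

set_option autoImplicit false

namespace Pool.Agent.V5helper62.RM

open Polynomial Finset Pool.Agent.R356 Pool.Agent.N743.SS

/-- removing the factors `X` -/
lemma Near.strip {D : ℕ} {H δ t : ℝ} (h : Near D H δ t) : ∃ P : ℤ[X], P ≠ 0 ∧ P.natDegree ≤ D ∧
    (∀ j, |((P.coeff j : ℤ) : ℝ)| ≤ H) ∧ |aeval t P| < max 1 |t|⁻¹ ^ D * δ ∧ (t = 0 ∨ P.coeff 0 ≠ 0) := by
  obtain ⟨P, h1, h2, h3, h4⟩ := h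
  have hδ : 0 < δ := (abs_nonneg _).trans_lt h4
  have hM : 1 ≤ max 1 |t|⁻¹ ^ D := one_le_pow₀ (le_max_left _ _)
  by_cases ht : t = 0
  · exact ⟨P, h1, h2, h3, h4.trans_le (le_mul_of_one_le_left hδ.le hM), Or.inl ht⟩
  · obtain ⟨q, hq1, hq2⟩ := exists_eq_pow_rootMultiplicity_mul_and_not_dvd P h1 0
    obtain ⟨n, hn⟩ : ∃ n, n = P.rootMultiplicity 0 := ⟨_, rfl⟩
    rw [← hn, C_0, sub_zero] at hq1
    rw [C_0, sub_zero, X_dvd_iff] at hq2
    have hq0 : q ≠ 0 := by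
      rintro rfl
      exact hq2 (coeff_zero 0)
    have hdeg : P.natDegree = n + q.natDegree := by
      rw [hq1, natDegree_mul (pow_ne_zero _ X_ne_zero) hq0, natDegree_X_pow]
    refine ⟨q, hq0, by omega, fun j => ?_, ?_, Or.inr hq2⟩
    · have h5 := h3 (j + n)
      rw [hq1, coeff_X_pow_mul] at h5
      exact h5
    · have h5 : aeval t P = t ^ n * aeval t q := by
        conv_lhs => rw [hq1]
        rw [map_mul, map_pow, aeval_X]
      have ht0 : 0 < |t| := abs_pos.2 ht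
      have h6 : |aeval t q| = |t|⁻¹ ^ n * |aeval t P| := by
        rw [h5, abs_mul, abs_pow, ← mul_assoc, ← mul_pow, inv_mul_cancel₀ ht0.ne', one_pow, one_mul]
      rw [h6]
      have h7 : |t|⁻¹ ^ n ≤ max 1 |t|⁻¹ ^ D :=
        (pow_le_pow_left₀ (by positivity) (le_max_right _ _) n).trans
          (pow_le_pow_right₀ (le_max_left _ _) (by omega))
      exact mul_lt_mul' h7 h4 (abs_nonneg _) (by linarith)

/-- **One more number.** -/
theorem step {ι κ' : Type} [Fintype κ'] {S : Set ℝ} {x : ι → ℝ} (hx : RelM S x) (t : ℝ)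
    (φ : κ' → (MvPolynomial ι ℤ)[X])
    (hs : ∀ α : ℂ, (t = 0 ∨ α ≠ 0) → ∀ w : κ' → ℂ, ∃ ψ : ι → ℂ, ∀ j,
      eval₂ (MvPolynomial.aeval ψ : MvPolynomial ι ℤ →ₐ[ℤ] ℂ).toRingHom α (φ j) = w j) :
    RelM (insert t S) (fun j => eval₂ (MvPolynomial.aeval x : MvPolynomial ι ℤ →ₐ[ℤ] ℝ).toRingHom t (φ j)) := by
  classical
  intro D
  obtain ⟨xc, hxc⟩ : ∃ xc : ι → ℂ, xc = fun i => ((x i : ℝ) : ℂ) := ⟨_, rfl⟩
  obtain ⟨θ, hθ⟩ : ∃ θ : MvPolynomial ι ℤ →+* ℂ, θ = (MvPolynomial.aeval xc : MvPolynomial ι ℤ →ₐ[ℤ] ℂ).toRingHom :=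
    ⟨_, rfl⟩
  obtain ⟨θr, hθr⟩ : ∃ θr : MvPolynomial ι ℤ →+* ℝ, θr = (MvPolynomial.aeval x : MvPolynomial ι ℤ →ₐ[ℤ] ℝ).toRingHom :=
    ⟨_, rfl⟩
  have hθθ : θ = (algebraMap ℝ ℂ).comp θr := by
    rw [hθ, hxc, hθr]
    refine MvPolynomial.ringHom_ext (fun r => ?_) (fun i => ?_)
    · simp
    · simp
  rw [← hθr]
  have hθv : ∀ z, θ z = ((MvPolynomial.aeval x z : ℝ) : ℂ) := by
    intro z
    rw [hθθ, hθr]
    rfl
  have hθn : ∀ z, ‖θ z‖ = |MvPolynomial.aeval x z| := by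
    intro z
    rw [hθv, Complex.norm_real, Real.norm_eq_abs]
  -- the size
  obtain ⟨ℓ, hℓ⟩ : ∃ ℓ : MvPolynomial ι ℤ → ℝ, ℓ = fun z => max (lenM z) ‖θ z‖ := ⟨_, rfl⟩
  have hℓL : IsLen ℓ := by rw [hℓ]; exact isLen_max isLenM (isLen_comap θ)
  have hℓ1 : ∀ z, lenM z ≤ ℓ z := fun z => by rw [hℓ]; exact le_max_left _ _
  have hℓ2 : ∀ z, ‖θ z‖ ≤ ℓ z := fun z => by rw [hℓ]; exact le_max_right _ _
  have hlL := hℓL.poly
  -- bounds for `φ`
  obtain ⟨B, hB1, hBφ⟩ : ∃ B : ℝ, 1 ≤ B ∧ ∀ j, len ℓ (φ j) ≤ B := by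
    refine ⟨1 + ∑ j, len ℓ (φ j), ?_, fun j => ?_⟩
    · have h2 : 0 ≤ ∑ j, len ℓ (φ j) := sum_nonneg fun j _ => hlL.nonneg _
      linarith
    · have h2 : len ℓ (φ j) ≤ ∑ j, len ℓ (φ j) :=
        single_le_sum (f := fun j => len ℓ (φ j)) (fun i _ => hlL.nonneg _) (mem_univ j)
      linarith
  have hB1' : len ℓ (1 : (MvPolynomial ι ℤ)[X]) ≤ B := hlL.one.trans hB1
  obtain ⟨E, hE1, hE2⟩ : ∃ E : ℕ, (∀ j, (φ j).natDegree ≤ E) ∧ ∀ j i, ((φ j).coeff i).totalDegree ≤ E := by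
    refine ⟨∑ j, ((φ j).natDegree + ∑ i ∈ (φ j).support, ((φ j).coeff i).totalDegree), fun j => ?_, fun j i => ?_⟩
    · have h2 := single_le_sum (f := fun j => (φ j).natDegree + ∑ i ∈ (φ j).support, ((φ j).coeff i).totalDegree)
        (fun i _ => Nat.zero_le _) (mem_univ j)
      have h3 : (φ j).natDegree ≤ (φ j).natDegree + ∑ i ∈ (φ j).support, ((φ j).coeff i).totalDegree := by omega
      exact h3.trans h2
    · have h2 := single_le_sum (f := fun j => (φ j).natDegree + ∑ i ∈ (φ j).support, ((φ j).coeff i).totalDegree)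
        (fun i _ => Nat.zero_le _) (mem_univ j)
      refine le_trans ?_ h2
      by_cases hi : i ∈ (φ j).support
      · have h3 := single_le_sum (f := fun i => ((φ j).coeff i).totalDegree) (fun i _ => Nat.zero_le _) hi
        exact h3.trans (Nat.le_add_left _ _)
      · rw [notMem_support_iff.1 hi]
        simp
  -- parameters
  obtain ⟨k, hk⟩ : ∃ k, k = D * E + 1 := ⟨_, rfl⟩
  obtain ⟨s, hs'⟩ : ∃ s, s = D + k := ⟨_, rfl⟩
  obtain ⟨T, hT⟩ : ∃ T : ℝ, T = max 1 |t| := ⟨_, rfl⟩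
  have hT1 : 1 ≤ T := by rw [hT]; exact le_max_left _ _
  have hTt : ‖(t : ℂ)‖ ≤ T := by rw [hT, Complex.norm_real, Real.norm_eq_abs]; exact le_max_right _ _
  obtain ⟨M, hM⟩ : ∃ M : ℝ, M = max 1 |t|⁻¹ ^ D := ⟨_, rfl⟩
  have hM1 : 1 ≤ M := by rw [hM]; exact one_le_pow₀ (le_max_left _ _)
  obtain ⟨κ₀, c₀, hκ₀, hc₀, hmeas⟩ := hx (s * (D * E) + D)
  obtain ⟨A, hA⟩ : ∃ A : ℝ, A = max 1 (((expo κ' D).card : ℝ) * B ^ D) := ⟨_, rfl⟩
  have hA1 : 1 ≤ A := by rw [hA]; exact le_max_left _ _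
  have hAB : ((expo κ' D).card : ℝ) * B ^ D ≤ A := by rw [hA]; exact le_max_right _ _
  have hfs : (1 : ℝ) ≤ s.factorial := by exact_mod_cast Nat.factorial_pos _
  have hs1R : (1 : ℝ) ≤ s := by exact_mod_cast (by omega : 1 ≤ s)
  have hAs : 1 ≤ A ^ s := one_le_pow₀ hA1
  have hTs : 1 ≤ T ^ s := one_le_pow₀ hT1
  obtain ⟨Z, hZ⟩ : ∃ Z : ℝ, Z = s.factorial * A ^ s := ⟨_, rfl⟩
  have hZ1 : 1 ≤ Z := by rw [hZ]; exact one_le_mul_of_one_le_of_one_le hfs hAs
  obtain ⟨V, hV⟩ : ∃ V : ℝ, V = s * T ^ s * M := ⟨_, rfl⟩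
  have hV1 : 1 ≤ V := by
    rw [hV]
    exact one_le_mul_of_one_le_of_one_le (one_le_mul_of_one_le_of_one_le hs1R hTs) hM1
  obtain ⟨W, hW⟩ : ∃ W : ℝ, W = V * Z := ⟨_, rfl⟩
  have hW1 : 1 ≤ W := by rw [hW]; exact one_le_mul_of_one_le_of_one_le hV1 hZ1
  have hW0 : 0 < W := by linarith
  have hZW : Z ≤ W := by rw [hW]; exact le_mul_of_one_le_left (by linarith) hV1
  refine ⟨s * κ₀ + s + 1, c₀ * W ^ (-κ₀) / W, by positivity, by positivity, ?_⟩
  intro H hS Q hQ hQD hQH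
  have hH : 1 ≤ H := one_le_of_mcoeff hQ hQH
  have hH0 : 0 < H := by linarith
  have hb := bound_le (g := s) (h := s) hκ₀ hc₀ hW1 hH
  obtain ⟨δ, hδ⟩ : ∃ δ : ℝ, δ = c₀ * W ^ (-κ₀) / W * H ^ (-(s * κ₀ + s + 1 : ℝ)) := ⟨_, rfl⟩
  rw [← hδ] at hb hS ⊢
  have hδ0 : 0 < δ := by rw [hδ]; positivity
  have hHs : 1 ≤ H ^ s := one_le_pow₀ hH
  have hWH : 1 ≤ W * H ^ s := one_le_mul_of_one_le_of_one_le hW1 hHs
  have hδW : δ ≤ c₀ * (W * H ^ s) ^ (-κ₀) := le_trans (le_mul_of_one_le_right hδ0.le hWH) hb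
  have hHHs : H ≤ H ^ s := le_self_pow₀ hH (by omega)
  have hHW : H ≤ W * H ^ s := hHHs.trans (le_mul_of_one_le_left (by positivity) hW1)
  obtain ⟨P, hP, hPD, hPH, hPt, hP0⟩ := (hS t (Set.mem_insert _ _)).strip
  rw [← hM] at hPt
  by_contra hcon
  rw [not_le] at hcon
  -- the polynomial in `T`
  obtain ⟨G, hG⟩ : ∃ G : (MvPolynomial ι ℤ)[X], G = homE D Q 1 φ := ⟨_, rfl⟩
  have hGdeg : G.natDegree ≤ k := by
    have h1 := homE_filt (degF (MvPolynomial ι ℤ)) (by show (1 : (MvPolynomial ι ℤ)[X]).natDegree ≤ 0; simp)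
      (fun m n hmn a (ha : a.natDegree ≤ m) => (show a.natDegree ≤ n from ha.trans hmn))
      (fun m n a b ha hb => natDegree_mul_le.trans (Nat.add_le_add ha hb)) hQD 1 φ
      (by show (1 : (MvPolynomial ι ℤ)[X]).natDegree ≤ E; simp) hE1
    rw [← hG] at h1
    have h2 : G.natDegree ≤ D * E := h1
    omega
  have hGc : ∀ i, (G.coeff i).totalDegree ≤ D * E := by
    have h1 := homE_filt (degCM (ι := ι)) (by
        intro j
        rw [coeff_one]
        split_ifs <;> simp)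
      (fun m n hmn a ha j => (ha j).trans hmn)
      (fun m n a b ha hb => cdeg_mul ha hb) hQD 1 φ (by
        intro j
        rw [coeff_one]
        split_ifs <;> simp) (fun j i => hE2 j i)
    rw [← hG] at h1
    exact h1
  have hGlen : len ℓ G ≤ A * H := by
    rw [hG]
    refine (homE_len hlL hQD 1 φ hQH hB1 hB1' hBφ).trans ?_
    calc ((expo κ' D).card : ℝ) * (H * B ^ D) = (((expo κ' D).card : ℝ) * B ^ D) * H := by ring
      _ ≤ A * H := mul_le_mul_of_nonneg_right hAB hH0.le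
  have hGi : ∀ i, ℓ (G.coeff i) ≤ A * H := fun i => (le_len hℓL G i).trans hGlen
  have hHA : H ≤ A * H := by nlinarith
  have hAH1 : 1 ≤ A * H := hH.trans hHA
  -- the resultant
  obtain ⟨m, hm⟩ : ∃ m, m = P.natDegree := ⟨_, rfl⟩
  have hmk : m + k ≤ s := by omega
  obtain ⟨N, hN⟩ : ∃ N : MvPolynomial ι ℤ, N = resultant (P.map (Int.castRingHom (MvPolynomial ι ℤ))) G m k := ⟨_, rfl⟩
  have hNdeg : N.totalDegree ≤ s * (D * E) := by
    have h1 := filt_res (degM (ι := ι)) (by show (1 : MvPolynomial ι ℤ).totalDegree ≤ 0; simp)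
      (fun m n hmn a (ha : a.totalDegree ≤ m) => (show a.totalDegree ≤ n from ha.trans hmn))
      (fun m n a b ha hb => (MvPolynomial.totalDegree_mul a b).trans (Nat.add_le_add ha hb)) P G m k (D * E) hGc
    rw [← hN] at h1
    have h2 : N.totalDegree ≤ (m + k) * (D * E) := h1
    exact h2.trans (Nat.mul_le_mul_right _ hmk)
  have hNlen : ℓ N ≤ W * H ^ s := by
    rw [hN]
    refine (len_res hℓL P G m k (A * H) (fun i => (hPH i).trans hHA) hGi).trans ?_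
    have h1 : (((m + k).factorial : ℕ) : ℝ) ≤ s.factorial := by exact_mod_cast Nat.factorial_le hmk
    have h2 : (A * H) ^ (m + k) ≤ (A * H) ^ s := pow_le_pow_right₀ hAH1 hmk
    calc (((m + k).factorial : ℕ) : ℝ) * (A * H) ^ (m + k) ≤ s.factorial * (A * H) ^ s :=
          mul_le_mul h1 h2 (by positivity) (by positivity)
      _ = Z * H ^ s := by rw [hZ, mul_pow]; ring
      _ ≤ W * H ^ s := mul_le_mul_of_nonneg_right hZW (by positivity)
  -- nonvanishing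
  have hN0 : N ≠ 0 := by
    have hinj : Function.Injective (Int.castRingHom ℂ) := Int.cast_injective
    have hQ' : MvPolynomial.map (Int.castRingHom ℂ) Q ≠ 0 := fun h1 =>
      hQ (MvPolynomial.map_injective _ Int.cast_injective (h1.trans (map_zero _).symm))
    obtain ⟨w, hw⟩ : ∃ w : κ' → ℂ, MvPolynomial.eval w (MvPolynomial.map (Int.castRingHom ℂ) Q) ≠ 0 := by
      by_contra hcon
      push Not at hcon
      exact hQ' (MvPolynomial.funext fun w => by rw [hcon w, map_zero])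
    have hw' : MvPolynomial.aeval w Q ≠ 0 := by
      rw [MvPolynomial.eval_map, ← algebraMap_int_eq] at hw
      exact hw
    -- evaluation at a point
    have hev : ∀ (ψ : ι → ℂ) (α : ℂ),
        eval₂ (MvPolynomial.aeval ψ : MvPolynomial ι ℤ →ₐ[ℤ] ℂ).toRingHom α G =
        MvPolynomial.aeval (fun j => eval₂ (MvPolynomial.aeval ψ : MvPolynomial ι ℤ →ₐ[ℤ] ℂ).toRingHom α (φ j)) Q := by
      intro ψ α
      have h1 := homE_map (eval₂RingHom (MvPolynomial.aeval ψ : MvPolynomial ι ℤ →ₐ[ℤ] ℂ).toRingHom α) D Q 1 φ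
      rw [← hG, map_one, homE_one] at h1
      exact h1
    obtain ⟨mc, hmc⟩ : ∃ mc : MvPolynomial ι ℤ →+* MvPolynomial ι ℂ, mc = MvPolynomial.map (Int.castRingHom ℂ) :=
      ⟨_, rfl⟩
    obtain ⟨Φ, hΦ⟩ : ∃ Φ : ℂ → ((MvPolynomial ι ℤ)[X] →+* MvPolynomial ι ℂ), Φ = fun α =>
      eval₂RingHom mc (MvPolynomial.C α) := ⟨_, rfl⟩
    have hevΦ : ∀ (ψ : ι → ℂ) (α : ℂ) (F : (MvPolynomial ι ℤ)[X]),
        MvPolynomial.eval ψ (Φ α F) = eval₂ (MvPolynomial.aeval ψ : MvPolynomial ι ℤ →ₐ[ℤ] ℂ).toRingHom α F := by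
      intro ψ α F
      have hA : (MvPolynomial.eval ψ).comp mc = (MvPolynomial.aeval ψ : MvPolynomial ι ℤ →ₐ[ℤ] ℂ).toRingHom := by
        rw [hmc]
        refine MvPolynomial.ringHom_ext (fun r => ?_) (fun i => ?_)
        · simp
        · simp
      have h1 : (MvPolynomial.eval ψ).comp (Φ α) =
          eval₂RingHom (MvPolynomial.aeval ψ : MvPolynomial ι ℤ →ₐ[ℤ] ℂ).toRingHom α := by
        rw [hΦ]
        refine Polynomial.ringHom_ext (fun a => ?_) ?_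
        · rw [RingHom.comp_apply, coe_eval₂RingHom, coe_eval₂RingHom, eval₂_C, eval₂_C, ← hA]
          rfl
        · rw [RingHom.comp_apply, coe_eval₂RingHom, coe_eval₂RingHom, eval₂_X, eval₂_X, MvPolynomial.eval_C]
      rw [← coe_eval₂RingHom, ← h1]
      rfl
    obtain ⟨ψ, hψ⟩ := exists_point ((P.map (Int.castRingHom ℂ)).roots.toFinset.image (fun α => Φ α G)) (by
      intro F' hF'
      rw [Finset.mem_image] at hF'
      obtain ⟨α, hα, rfl⟩ := hF'
      rw [Multiset.mem_toFinset, mem_roots ((Polynomial.map_ne_zero_iff hinj).2 hP), IsRoot.def, eval_map] at hα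
      have hα0 : t = 0 ∨ α ≠ 0 := by
        rcases hP0 with h1 | h1
        · exact Or.inl h1
        · right
          rintro rfl
          rw [eval₂_at_zero] at hα
          simp only [eq_intCast, Int.cast_eq_zero] at hα
          exact h1 hα
      obtain ⟨ψ, hψ⟩ := hs α hα0 w
      intro h0
      apply hw'
      have h1 := hev ψ α
      rw [← hevΦ ψ α, h0, map_zero] at h1
      rw [show w = fun j => eval₂ (MvPolynomial.aeval ψ : MvPolynomial ι ℤ →ₐ[ℤ] ℂ).toRingHom α (φ j) from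
        funext fun j => (hψ j).symm]
      exact h1.symm)
    have hψ' : ∀ α ∈ (P.map (Int.castRingHom ℂ)).roots,
        eval₂ (MvPolynomial.aeval ψ : MvPolynomial ι ℤ →ₐ[ℤ] ℂ).toRingHom α G ≠ 0 := by
      intro α hα
      have h1 := hψ _ (Finset.mem_image_of_mem _ (Multiset.mem_toFinset.2 hα))
      rwa [hevΦ ψ α] at h1
    obtain ⟨ρ, hρ⟩ : ∃ ρ : MvPolynomial ι ℤ →+* ℂ, ρ = (MvPolynomial.aeval ψ : MvPolynomial ι ℤ →ₐ[ℤ] ℂ).toRingHom :=
      ⟨_, rfl⟩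
    intro h0
    have h1 : resultant (P.map (Int.castRingHom ℂ)) (G.map ρ) m k = 0 := by
      have h2 : (P.map (Int.castRingHom (MvPolynomial ι ℤ))).map ρ = P.map (Int.castRingHom ℂ) := by
        rw [Polynomial.map_map]
        congr 1
        exact RingHom.ext_int _ _
      rw [← h2, resultant_map_map, ← hN, h0, map_zero]
    rw [hm] at h1
    refine res_ne_zero P hP (G.map ρ) k (natDegree_map_le.trans hGdeg) (fun α hα => ?_) h1
    rw [eval_map, hρ]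
    exact hψ' α hα
  have hlow := hmeas (W * H ^ s) (fun u hu => (hS u (Set.mem_insert_of_mem _ hu)).mono (by omega) hHW hδW)
    N hN0 (by omega) (fun i => (le_lenM N i).trans ((hℓ1 N).trans hNlen))
  -- the value
  have hcast : ‖aeval (t : ℂ) P‖ = |aeval t P| := by
    have h1 : aeval (t : ℂ) P = ((aeval t P : ℝ) : ℂ) := (map_aeval_int (algebraMap ℝ ℂ) t P).symm
    rw [h1, Complex.norm_real, Real.norm_eq_abs]
  have hGt : (G.map θ).eval (t : ℂ) = ((MvPolynomial.aeval (fun j => eval₂ θr t (φ j)) Q : ℝ) : ℂ) := by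
    have h1 := homE_map (eval₂RingHom θr t) D Q 1 φ
    rw [← hG, map_one, homE_one] at h1
    have h2 : eval₂ θr t G = MvPolynomial.aeval (fun j => eval₂ θr t (φ j)) Q := h1
    rw [← h2, eval_map, hθθ]
    have h3 := hom_eval₂ G θr (algebraMap ℝ ℂ) t
    exact h3.symm
  have hmain : ‖resultant (P.map (Int.castRingHom ℂ)) (G.map θ) m k‖ ≤
      (m + k) * (T ^ (m + k) * (max |aeval t P| |MvPolynomial.aeval (fun j => eval₂ θr t (φ j)) Q|)) *
        ((m + k).factorial * (A * H) ^ (m + k)) := by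
    refine res_small P _ m k hm.ge (natDegree_map_le.trans hGdeg) (by omega) (A * H) T _ hAH1
      (fun i => (hPH i).trans hHA) (fun i => ?_) (t : ℂ) hT1 hTt ?_ ?_
    · rw [coeff_map]
      exact (hℓ2 _).trans (hGi i)
    · rw [hcast]
      exact le_max_left _ _
    · rw [hGt, Complex.norm_real, Real.norm_eq_abs]
      exact le_max_right _ _
  have hNx : ‖resultant (P.map (Int.castRingHom ℂ)) (G.map θ) m k‖ = |MvPolynomial.aeval x N| := by
    rw [← hθn, hN]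
    have h2 : (P.map (Int.castRingHom (MvPolynomial ι ℤ))).map θ = P.map (Int.castRingHom ℂ) := by
      rw [Polynomial.map_map]
      congr 1
      exact RingHom.ext_int _ _
    rw [← resultant_map_map, h2]
  rw [hNx] at hmain
  obtain ⟨ε, hε⟩ : ∃ ε : ℝ, ε = max |aeval t P| |MvPolynomial.aeval (fun j => eval₂ θr t (φ j)) Q| := ⟨_, rfl⟩
  rw [← hε] at hmain
  have hε0 : 0 ≤ ε := by rw [hε]; exact le_max_of_le_left (abs_nonneg _)
  have hεδ : ε < M * δ := by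
    rw [hε, max_lt_iff]
    exact ⟨hPt, hcon.trans_le (le_mul_of_one_le_left hδ0.le hM1)⟩
  have h5 : (((m + k).factorial : ℕ) : ℝ) ≤ s.factorial := by exact_mod_cast Nat.factorial_le hmk
  have h6 : (A * H) ^ (m + k) ≤ (A * H) ^ s := pow_le_pow_right₀ hAH1 hmk
  have h7 : T ^ (m + k) ≤ T ^ s := pow_le_pow_right₀ hT1 hmk
  have h8 : ((m : ℝ) + k) ≤ s := by exact_mod_cast hmk
  have hup : |MvPolynomial.aeval x N| ≤ (s * T ^ s * Z * H ^ s) * ε := by
    refine hmain.trans ?_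
    calc ((m : ℝ) + k) * (T ^ (m + k) * ε) * ((((m + k).factorial : ℕ) : ℝ) * (A * H) ^ (m + k))
        ≤ s * (T ^ s * ε) * (s.factorial * (A * H) ^ s) := by gcongr
      _ = _ := by rw [hZ, mul_pow]; ring
  have hpos : 0 < s * T ^ s * Z * H ^ s := by positivity
  have hfin : |MvPolynomial.aeval x N| < c₀ * (W * H ^ s) ^ (-κ₀) := by
    calc |MvPolynomial.aeval x N| ≤ (s * T ^ s * Z * H ^ s) * ε := hup
      _ < (s * T ^ s * Z * H ^ s) * (M * δ) := mul_lt_mul_of_pos_left hεδ hpos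
      _ = δ * (W * H ^ s) := by rw [hW, hV]; ring
      _ ≤ _ := hb
  exact absurd hlow (not_le.2 hfin)

end Pool.Agent.V5helper62.RM
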